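import Pool.Agent.Helper90.PL.OG
import Pool.Agent.Helper90.TW.OrbF1
import Pool.Agent.Helper59.ML.NR
import Pool.Agent.Helper97.PD.Defs

/-!
# Pro-`ℓ` levels (MP_e66f84_ag): the set of the rational branch places

`rs_core`: if a finite set `S` of branch places, whose number is divisible by `ℓ` and at least four, is
stable under an action which fixes one place of `S`, then there is a set `R` as in `PD.RatSet`.
-/

set_option autoImplicit false

namespace Pool.Agent.PL90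

open VC IntermediateField NumberField Pool.Agent.SC Pool.Agent.M
open Pool.Agent.L (L0 MM)
open Pool.Agent.LN (Geo Act)
open Pool.Agent.ML (HasMu BPl)
open Pool.Agent.TOW (mv_comp mv_symm mv_unique)

/-- A power prime to `ℓ` of a permutation of a finite set, whose number of elements is divisible by `ℓ`,
has as many fixed points modulo `ℓ`. -/
theorem perm_fix90 {S : Type} [Finite S] {ℓ : ℕ} (hℓ : ℓ.Prime) (hd : ℓ ∣ Nat.card S)
    (π : Equiv.Perm S) {s : S} (hs : π s = s) :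
    ∃ n : ℕ, ¬ ℓ ∣ n ∧ ℓ ≤ Nat.card {t : S // (π ^ n) t = t} := by
  have : Fact ℓ.Prime := ⟨hℓ⟩
  have h0 : orderOf π ≠ 0 := (orderOf_pos π).ne'
  obtain ⟨a, m, hm, hπ⟩ := Nat.exists_eq_pow_mul_and_not_dvd h0 ℓ hℓ.ne_one
  refine ⟨m, hm, ?_⟩
  have hp : IsPGroup ℓ (Subgroup.zpowers (π ^ m)) := by
    rintro ⟨g, j, rfl⟩
    refine ⟨a, ?_⟩
    apply Subtype.ext
    change ((π ^ m) ^ j) ^ (ℓ ^ a) = 1
    rw [← zpow_natCast ((π ^ m) ^ j), ← zpow_mul, mul_comm, zpow_mul, zpow_natCast, ← pow_mul,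
      mul_comm m, ← hπ, pow_orderOf_eq_one, one_zpow]
  have h1 := hp.card_modEq_card_fixedPoints S
  have h2 : ℓ ∣ Nat.card (MulAction.fixedPoints (Subgroup.zpowers (π ^ m)) S) :=
    (Nat.modEq_zero_iff_dvd.1 (h1.symm.trans (Nat.modEq_zero_iff_dvd.2 hd)))
  have h3 : ∀ t : S, t ∈ MulAction.fixedPoints (Subgroup.zpowers (π ^ m)) S ↔
      (π ^ m) t = t := by
    intro t
    constructor
    · intro ht
      exact ht ⟨π ^ m, Subgroup.mem_zpowers _⟩
    · rintro ht ⟨g, hg⟩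
      have h4 : Subgroup.zpowers (π ^ m) ≤ MulAction.stabilizer (Equiv.Perm S) t := by
        rw [Subgroup.zpowers_le]
        exact ht
      exact h4 hg
  have h4 : Nat.card (MulAction.fixedPoints (Subgroup.zpowers (π ^ m)) S) =
      Nat.card {t : S // (π ^ m) t = t} := Nat.card_congr (Equiv.subtypeEquivRight h3)
  rw [h4] at h2
  have h5 : ∀ n : ℕ, (π ^ n) s = s := by
    intro n
    induction n with
    | zero => rfl
    | succ n ih => rw [pow_succ, Equiv.Perm.mul_apply, hs, ih]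
  have h6 : Nonempty {t : S // (π ^ m) t = t} := ⟨s, h5 m⟩
  exact Nat.le_of_dvd Nat.card_pos h2

/-- `n ℓ ^ 2 < ℓ ^ n` -/
theorem num90 {ℓ n : ℕ} (hℓ : 3 ≤ ℓ) (hn : 4 ≤ n) : n * ℓ ^ 2 < ℓ ^ n := by
  induction n, hn using Nat.le_induction with
  | base =>
    have h1 : 9 ≤ ℓ ^ 2 := by nlinarith
    have h2 : ℓ ^ 4 = ℓ ^ 2 * ℓ ^ 2 := by ring
    rw [h2]
    nlinarith
  | succ n hn ih =>
    have h1 : n + 1 ≤ n * ℓ := by nlinarith
    calc (n + 1) * ℓ ^ 2 ≤ n * ℓ * ℓ ^ 2 := Nat.mul_le_mul_right _ h1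
      _ = n * ℓ ^ 2 * ℓ := by ring
      _ < ℓ ^ n * ℓ := Nat.mul_lt_mul_of_pos_right ih (by omega)
      _ = ℓ ^ (n + 1) := (pow_succ ℓ n).symm

section

variable {k K1 E U : Type} [Field k] [NumberField k] [Field K1] [Field E] [Field U] [Algebra k K1]
    [Algebra k E] [Algebra E U] [Algebra K1 U] [Algebra k U] [IsScalarTower k E U]
    [IsScalarTower k K1 U] {ℓ : ℕ} {h1 : K1} {r : U}

theorem rs_core (hℓ : ℓ.Prime) (hℓ2 : ℓ ≠ 2) (hμ : HasMu k ℓ) (hG : Geo k K1 E U ℓ h1 r)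
    (S : Set (Place E (L0 E K1 (U := U)))) (hSb : ∀ b ∈ S, BPl ℓ h1 b)
    (hdvd : ℓ ∣ Nat.card S) (h4 : 4 ≤ Nat.card S)
    {b₁ : Place E (L0 E K1 (U := U))} (hb₁ : b₁ ∈ S) {c₀ : k} (hc₀ : c₀ ≠ 0)
    {Φ₀ : (E ≃ₐ[k] E) →* (U ≃+* U)} (hA : Act (K0 := K1) ℓ r c₀ Φ₀)
    (hfix : ∀ g : E ≃ₐ[k] E, Moves (Φ₀ g) _ b₁ b₁)
    (hS : ∀ (g : E ≃ₐ[k] E) (b b' : Place E (L0 E K1 (U := U))), b ∈ S → Moves (Φ₀ g) _ b b' →
      b' ∈ S) :
    ∃ R : Finset (Place E (L0 E K1 (U := U))), PD.RatSet (k := k) ℓ h1 r R := by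
  classical
  have hℓ3 : 3 ≤ ℓ := by
    have := hℓ.two_le
    omega
  obtain ⟨hfin, hnr⟩ := ML.nR k K1 E U ℓ ℓ h1 r hℓ.pos hℓ (dvd_refl _) hμ hG
  have hagree : ∀ (c : k) (Φ : (E ≃ₐ[k] E) →* (U ≃+* U)), c ≠ 0 → Act (K0 := K1) ℓ r c Φ →
      ∀ (σ : E ≃ₐ[k] E) (b b' : Place E (L0 E K1 (U := U))),
        Moves (Φ σ) _ b b' ↔ Moves (Φ₀ σ) _ b b' := fun c Φ hc hΦ =>
    (hnr c Φ hc hΦ).2.2.1 c₀ Φ₀ hc₀ hA
  obtain ⟨hex, hord, -, -, -⟩ := hnr c₀ Φ₀ hc₀ hA
  have hSfin : S.Finite := hfin.subset fun b hb => hSb b hb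
  have hSF : Finite S := hSfin.to_subtype
  obtain ⟨T, hT⟩ : ∃ T : Set (Place E (L0 E K1 (U := U))),
      T = {b | BPl ℓ h1 b ∧ ∀ σ : E ≃ₐ[k] E, Moves (Φ₀ σ) _ b b} := ⟨_, rfl⟩
  have hTfin : T.Finite := hfin.subset fun b hb => by
    rw [hT] at hb
    exact hb.1
  have hmem : ∀ b, b ∈ hTfin.toFinset ↔ BPl ℓ h1 b ∧ ∀ σ : E ≃ₐ[k] E, Moves (Φ₀ σ) _ b b := by
    intro b
    rw [Set.Finite.mem_toFinset, hT]
    rfl
  refine ⟨hTfin.toFinset, ?_, ?_, ?_, ?_, ?_, ?_⟩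
  · exact ⟨b₁, (hmem b₁).2 ⟨hSb b₁ hb₁, hfix⟩⟩
  · exact fun b hb => ((hmem b).1 hb).1
  · intro b hb c Φ hc hΦ σ
    exact (hagree c Φ hc hΦ σ b b).2 (((hmem b).1 hb).2 σ)
  · intro c Φ hc hΦ b hb hbR
    by_contra hcon
    push Not at hcon
    exact hbR ((hmem b).2 ⟨hb, fun σ => (hagree c Φ hc hΦ σ b b).1 (hcon σ)⟩)
  · refine num90 hℓ3 (h4.trans ?_)
    have : Finite {b : Place E (L0 E K1 (U := U)) // BPl ℓ h1 b} := hfin.to_subtype
    exact Nat.card_le_card_of_injective (fun b : S => ⟨b.1, hSb b.1 b.2⟩) fun b b' h =>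
      Subtype.ext (congrArg (fun b : {b : Place E (L0 E K1 (U := U)) // BPl ℓ h1 b} => b.1) h)
  · intro a ha b hb hab
    refine ⟨hℓ2, fun c Φ hc hΦ σ => ?_⟩
    -- the permutation of `S`
    have hex' : ∀ s : S, ∃ t : S, Moves (Φ₀ σ) _ s.1 t.1 := by
      intro s
      obtain ⟨b', hb', -⟩ := hex σ s.1
      exact ⟨⟨b', hS σ s.1 b' s.2 hb'⟩, hb'⟩
    choose f hf using hex'
    have hinj : Function.Injective f := by
      intro s t hst
      have h1 := mv_symm (hf s)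
      have h2 := mv_symm (hf t)
      rw [hst] at h1
      have h3 : (Φ₀ σ).symm = Φ₀ σ⁻¹ := by
        rw [map_inv]
        rfl
      rw [h3] at h1 h2
      exact Subtype.ext ((hex σ⁻¹ (f t).1).unique h1 h2)
    obtain ⟨π, hπ⟩ : ∃ π : Equiv.Perm S, ∀ s, π s = f s :=
      ⟨Equiv.ofBijective f (Finite.injective_iff_bijective.1 hinj), fun s => rfl⟩
    have hl0 : ∀ (g : E ≃ₐ[k] E) (z : U), z ∈ L0 E K1 (U := U) → Φ₀ g z ∈ L0 E K1 (U := U) := by
      intro g z hz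
      induction hz using IntermediateField.adjoin_induction with
      | mem y hy =>
        obtain ⟨x, rfl⟩ := hy
        rw [hA.fixK]
        exact IntermediateField.subset_adjoin _ _ ⟨x, rfl⟩
      | algebraMap e => rw [hA.const]; exact (L0 E K1 (U := U)).algebraMap_mem _
      | add y y' _ _ h h' => rw [map_add]; exact add_mem h h'
      | inv y _ h => rw [map_inv₀]; exact inv_mem h
      | mul y y' _ _ h h' => rw [map_mul]; exact mul_mem h h'
    have hmv : ∀ (n : ℕ) (s : S), Moves (Φ₀ (σ ^ n)) _ s.1 ((π ^ n) s).1 := by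
      intro n
      induction n with
      | zero =>
        intro s
        rw [pow_zero, map_one, pow_zero]
        exact TOW.mv_id (fun z _ => rfl) _
      | succ n ih =>
        intro s
        have h1 := mv_comp (hl0 (σ ^ n)) (ih s) (hf ((π ^ n) s))
        rw [← hπ] at h1
        rw [pow_succ' σ, map_mul, pow_succ' π]
        exact h1
    have hπb : π ⟨b₁, hb₁⟩ = ⟨b₁, hb₁⟩ := by
      apply Subtype.ext
      rw [hπ]
      exact (hex σ b₁).unique (hf ⟨b₁, hb₁⟩) (hfix σ)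
    obtain ⟨n, hn, hcard⟩ := perm_fix90 hℓ hdvd π hπb
    -- a fixed point different from `a` and `b`
    obtain ⟨t, ht, hta, htb⟩ : ∃ t : S, (π ^ n) t = t ∧ t.1 ≠ a ∧ t.1 ≠ b := by
      by_contra hcon
      push Not at hcon
      have h5 : Nat.card {t : S // (π ^ n) t = t} ≤ Nat.card ({a, b} : Finset _) := by
        refine Nat.card_le_card_of_injective
          (fun t : {t : S // (π ^ n) t = t} => (⟨t.1.1, ?_⟩ : ({a, b} : Finset _))) ?_
        · rw [Finset.mem_insert, Finset.mem_singleton]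
          by_cases h6 : t.1.1 = a
          · exact Or.inl h6
          · exact Or.inr (hcon t.1 t.2 h6)
        · intro t t' h
          exact Subtype.ext (Subtype.ext (congrArg (fun b : ({a, b} : Finset _) => b.1) h))
      rw [Nat.card_eq_fintype_card (α := ({a, b} : Finset (Place E (L0 E K1 (U := U))))),
        Fintype.card_coe] at h5
      have h6 : ({a, b} : Finset (Place E (L0 E K1 (U := U)))).card ≤ 2 := Finset.card_le_two
      omega
    refine ⟨t.1, hSb t.1 t.2, hta, htb, n, hn, (hagree c Φ hc hΦ (σ ^ n) t.1 t.1).2 ?_⟩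
    have h7 := hmv n t
    rw [ht] at h7
    exact h7

end

end Pool.Agent.PL90
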