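import Pool.Agent.Helper34.TW.OrbA

/-!
# Pro-`ℓ` levels (MP_e66f84_ag): ramification of cyclic extensions of prime degree

The versions for a prime `ℓ` of OG1, OG2, OG3 of project TW (helper34).
-/

set_option autoImplicit false

namespace Pool.Agent.PL90

open VC IntermediateField Pool.Agent.SC Pool.Agent.M
open Pool.Agent.TOW (moves_nonunits34 overPl_nonunits34 val_eq_one34 ord_pow34)

section

variable {E U : Type} [Field E] [Field U] [Algebra E U]

/-- constants in the maximal ideal are zero -/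
theorem const_zero90 {F : Type} [Field F] [Algebra E F] (P : Place E F) {e : E}
    (h : algebraMap E F e ∈ P.ring.nonunits) : e = 0 := by
  by_contra he
  rcases (ValuationSubring.mem_nonunits_iff_or _).1 h with h7 | h7
  · rw [map_eq_zero] at h7
    exact he h7
  · apply h7
    rw [← map_inv₀]
    exact P.algebraMap_mem _

/-- An automorphism over `E` which fixes the place `Q` is trivial on the residues. -/
theorem og1 [IsAlgClosed E] [CharZero E] {N : IntermediateField E U} (hN : IsFunctionField E N)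
    {Q : Place E N} {T : U ≃+* U} (hTE : ∀ e : E, T (algebraMap E U e) = algebraMap E U e)
    (hT : Moves T N Q Q) {z : N} (hz : Q.ring.valuation z = 1) {c : E}
    (hTz : T z = algebraMap E U c * z) : c = 1 := by
  obtain ⟨hzr, hzn⟩ := (val_eq_one34 Q.ring z).1 hz
  obtain ⟨d, hd⟩ := FF.exists_residue hN Q hzr
  have h1 : T ((z - algebraMap E N d : N) : U) =
      ((algebraMap E N c * z - algebraMap E N d : N) : U) := by
    change T ((z : U) - algebraMap E U d) = algebraMap E U c * z - algebraMap E U d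
    rw [map_sub, hTz, hTE]
  have hmem : T ((z - algebraMap E N d : N) : U) ∈ N := by
    rw [h1]
    exact (algebraMap E N c * z - algebraMap E N d : N).2
  have h2 := (moves_nonunits34 hT (z - algebraMap E N d : N).2 hmem).1 hd
  have h3 : (⟨T ((z - algebraMap E N d : N) : U), hmem⟩ : N) =
      algebraMap E N c * z - algebraMap E N d := Subtype.ext h1
  rw [h3] at h2
  have h4 : algebraMap E N c * (z - algebraMap E N d) ∈ Q.ring.nonunits := by
    rw [ValuationSubring.mem_nonunits_iff] at hd ⊢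
    rw [map_mul]
    have h5 := (Q.ring.valuation_le_one_iff _).2 (Q.algebraMap_mem c)
    exact mul_lt_one_of_nonneg_of_lt_one_right h5 zero_le hd
  have h5 : algebraMap E N ((c - 1) * d) ∈ Q.ring.nonunits := by
    have e : algebraMap E N ((c - 1) * d) =
        (algebraMap E N c * z - algebraMap E N d) - algebraMap E N c * (z - algebraMap E N d) := by
      rw [map_mul, map_sub, map_one]
      ring
    rw [e, ValuationSubring.mem_nonunits_iff]
    rw [ValuationSubring.mem_nonunits_iff] at h2 h4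
    exact Valuation.map_sub_lt _ h2 h4
  rcases mul_eq_zero.1 (const_zero90 Q h5) with h6 | h6
  · exact sub_eq_zero.1 h6
  · exfalso
    rw [h6, map_zero, sub_zero] at hd
    exact hzn hd

theorem eq_one_of_pow90 {Γ : Type} [LinearOrderedCommGroupWithZero Γ] {g : Γ} {n : ℕ} (hn : n ≠ 0)
    (h : g ^ n = 1) : g = 1 := (pow_eq_one_iff_of_nonneg zero_le hn).1 h

theorem le_one_of_pow90 {Γ : Type} [LinearOrderedCommGroupWithZero Γ] {g : Γ} {n : ℕ} (hn : n ≠ 0)
    (h : g ^ n ≤ 1) : g ≤ 1 := (pow_le_one_iff_of_nonneg zero_le hn).1 h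

/-- Ramification at a fixed place. -/
theorem og2 [IsAlgClosed E] [CharZero E] {L N : IntermediateField E U} (hLN : L ≤ N)
    (hL : IsFunctionField E L) (hN : IsFunctionField E N) {b : Place E L} {Q : Place E N}
    (hbQ : OverPl b Q) {T : U ≃+* U} (hTL : ∀ z ∈ L, T z = z) (hT : Moves T N Q Q) {n : ℕ}
    (hn : n ≠ 0) {r : U} {h : L} (hr : r ∈ N) (hr0 : r ≠ 0) {c : E} (hc : c ≠ 1)
    (hTr : T r = algebraMap E U c * r) (hh : (h : U) = r ^ n) : ¬ (n : ℤ) ∣ ord b.ring h := by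
  rintro ⟨m, hm⟩
  have hh0 : h ≠ 0 := by
    rintro rfl
    exact pow_ne_zero n hr0 hh.symm
  obtain ⟨π, hπ0, hπ1⟩ := FF.exists_uniformizer hL b
  obtain ⟨t, ht⟩ : ∃ t : L, t = π ^ m := ⟨_, rfl⟩
  have ht0 : t ≠ 0 := by
    rw [ht]
    exact zpow_ne_zero _ hπ0
  have hordt : ord b.ring t = m := by
    rw [ht, FF.ord_zpow hL b hπ0, hπ1, mul_one]
  have htn0 : t ^ n ≠ 0 := pow_ne_zero n ht0
  -- the unit `w = h / t ^ n`
  have hw0 : h * (t ^ n)⁻¹ ≠ 0 := mul_ne_zero hh0 (inv_ne_zero htn0)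
  have hw : ord b.ring (h * (t ^ n)⁻¹) = 0 := by
    rw [ord_mul hL b hh0 (inv_ne_zero htn0), ord_inv hL b htn0, ord_pow34 hL b ht0, hordt, hm]
    ring
  have hwr : h * (t ^ n)⁻¹ ∈ b.ring := (ord_nonneg_iff hL b hw0).1 hw.ge
  have hwn : h * (t ^ n)⁻¹ ∉ b.ring.nonunits := fun hn => by
    have := (ord_pos_iff hL b hw0).2 hn
    omega
  have htN : (t : U) ∈ N := hLN t.2
  have hzN : r * (t : U)⁻¹ ∈ N := mul_mem hr (inv_mem htN)
  have hmem : ((h * (t ^ n)⁻¹ : L) : U) ∈ N := hLN (h * (t ^ n)⁻¹).2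
  have hpow : (⟨_, hzN⟩ : N) ^ n = ⟨_, hmem⟩ := by
    apply Subtype.ext
    change (r * (t : U)⁻¹) ^ n = (h : U) * ((t : U) ^ n)⁻¹
    rw [mul_pow, inv_pow, hh]
  have h1 : Q.ring.valuation (⟨_, hmem⟩ : N) = 1 :=
    (val_eq_one34 Q.ring _).2 ⟨(hbQ _ (h * (t ^ n)⁻¹ : L).2 hmem).1 hwr,
      fun hn => hwn ((overPl_nonunits34 hbQ (h * (t ^ n)⁻¹ : L).2 hmem).2 hn)⟩
  rw [← hpow, map_pow] at h1
  have h3 := eq_one_of_pow90 hn h1
  refine hc (og1 hN (fun e => hTL _ (L.algebraMap_mem e)) hT h3 ?_)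
  change T (r * (t : U)⁻¹) = algebraMap E U c * (r * (t : U)⁻¹)
  rw [map_mul, map_inv₀, hTr, hTL _ t.2, mul_assoc]

/-- the decomposition into eigenvectors -/
theorem dec90 {L N : IntermediateField E U} {T : U ≃+* U} (hTN : ∀ z ∈ N, T z ∈ N) {ℓ : ℕ}
    (hℓ : ℓ ≠ 0) (hTE : ∀ e : E, T (algebraMap E U e) = algebraMap E U e)
    (hTT : ∀ z ∈ N, (T ^ ℓ) z = z) (hfix : ∀ z ∈ N, T z = z → z ∈ L) {r : U} (hr : r ∈ N)
    (hr0 : r ≠ 0) {c : E} (hc : IsPrimitiveRoot c ℓ) (hch : (ℓ : U) ≠ 0)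
    (hTr : T r = algebraMap E U c * r) {z : U} (hz : z ∈ N) :
    ∃ p : ℕ → L, z = ∑ i ∈ Finset.range ℓ, (p i : U) * r ^ i := by
  obtain ⟨ζ, hζ⟩ : ∃ ζ, ζ = algebraMap E U c := ⟨_, rfl⟩
  have hζp : IsPrimitiveRoot ζ ℓ := by
    rw [hζ]
    exact hc.map_of_injective (algebraMap E U).injective
  have hζ0 : ζ ≠ 0 := hζp.ne_zero hℓ
  have hTζ : T ζ = ζ := by rw [hζ, hTE]
  have hζN : ζ ∈ N := by rw [hζ]; exact N.algebraMap_mem c
  have hTj : ∀ j : ℕ, (T ^ j) z ∈ N := by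
    intro j
    induction j with
    | zero => exact hz
    | succ j ih =>
      rw [pow_succ']
      exact hTN _ ih
  have hTs : ∀ j : ℕ, T ((T ^ j) z) = (T ^ (j + 1)) z := by
    intro j
    rw [pow_succ']
    rfl
  -- the eigenvectors
  obtain ⟨A, hA⟩ : ∃ A : ℕ → U, ∀ i, A i = ∑ j ∈ Finset.range ℓ, (ζ⁻¹) ^ (i * j) * (T ^ j) z :=
    ⟨_, fun _ => rfl⟩
  have hAN : ∀ i, A i ∈ N := by
    intro i
    rw [hA]
    exact sum_mem fun j _ => mul_mem (pow_mem (inv_mem hζN) _) (hTj j)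
  have hTA : ∀ i, T (A i) = ζ ^ i * A i := by
    intro i
    have h1 : ∑ j ∈ Finset.range ℓ, (ζ⁻¹) ^ (i * (j + 1)) * (T ^ (j + 1)) z =
        ∑ j ∈ Finset.range ℓ, (ζ⁻¹) ^ (i * j) * (T ^ j) z := by
      have h2 := Finset.sum_range_succ (fun j => (ζ⁻¹) ^ (i * j) * (T ^ j) z) ℓ
      rw [Finset.sum_range_succ'] at h2
      have h3 : (ζ⁻¹) ^ (i * ℓ) * (T ^ ℓ) z = (ζ⁻¹) ^ (i * 0) * (T ^ 0) z := by
        rw [hTT z hz, mul_comm i ℓ, pow_mul, inv_pow, hζp.pow_eq_one, inv_one, one_pow, mul_zero,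
          pow_zero]
        rfl
      rw [h3] at h2
      exact add_right_cancel h2
    rw [hA, map_sum, ← h1, Finset.mul_sum]
    refine Finset.sum_congr rfl fun j _ => ?_
    rw [map_mul, map_pow, map_inv₀, hTζ, hTs, ← mul_assoc]
    congr 1
    rw [mul_add, mul_one, pow_add, mul_comm ((ζ⁻¹) ^ (i * j)), ← mul_assoc, ← mul_pow,
      mul_inv_cancel₀ hζ0, one_pow, one_mul]
  have hsum : ∑ i ∈ Finset.range ℓ, A i = (ℓ : U) * z := by
    simp only [hA]
    rw [Finset.sum_comm]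
    have h1 : ∀ j ∈ Finset.range ℓ, ∑ i ∈ Finset.range ℓ, (ζ⁻¹) ^ (i * j) * (T ^ j) z =
        if j = 0 then (ℓ : U) * z else 0 := by
      intro j hj
      rw [← Finset.sum_mul]
      split_ifs with h2
      · subst h2
        have h3 : ∑ i ∈ Finset.range ℓ, (ζ⁻¹) ^ (i * 0) = (ℓ : U) := by simp
        rw [h3]
        rfl
      · have h3 : ∑ i ∈ Finset.range ℓ, (ζ⁻¹) ^ (i * j) = 0 := by
          have h4 : ζ⁻¹ ^ j ≠ 1 := by
            intro h5
            rw [inv_pow, inv_eq_one] at h5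
            exact h2 (Nat.eq_zero_of_dvd_of_lt ((hζp.pow_eq_one_iff_dvd j).1 h5)
              (Finset.mem_range.1 hj))
          have h5 : (∑ i ∈ Finset.range ℓ, (ζ⁻¹ ^ j) ^ i) * (ζ⁻¹ ^ j - 1) = 0 := by
            rw [geom_sum_mul, ← pow_mul, mul_comm j ℓ, pow_mul, inv_pow, hζp.pow_eq_one, inv_one,
              one_pow, sub_self]
          have h6 : ∑ i ∈ Finset.range ℓ, (ζ⁻¹) ^ (i * j) = ∑ i ∈ Finset.range ℓ, (ζ⁻¹ ^ j) ^ i := by
            refine Finset.sum_congr rfl fun i _ => ?_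
            rw [← pow_mul, mul_comm]
          rw [h6]
          exact (mul_eq_zero.1 h5).resolve_right (sub_ne_zero.2 h4)
        rw [h3, zero_mul]
    rw [Finset.sum_congr rfl h1, Finset.sum_ite_eq' (Finset.range ℓ) 0,
      if_pos (Finset.mem_range.2 (Nat.pos_of_ne_zero hℓ))]
  have hlN : (ℓ : U) ∈ N := _root_.natCast_mem N ℓ
  have hp : ∀ i, A i * ((ℓ : U) * r ^ i)⁻¹ ∈ L := by
    intro i
    refine hfix _ (mul_mem (hAN i) (inv_mem (mul_mem hlN (pow_mem hr i)))) ?_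
    rw [map_mul, map_inv₀, map_mul, map_natCast, map_pow, hTA, hTr, ← hζ, mul_pow]
    have h1 : ζ ^ i ≠ 0 := pow_ne_zero i hζ0
    have h2 : r ^ i ≠ 0 := pow_ne_zero i hr0
    field_simp
  refine ⟨fun i => ⟨_, hp i⟩, ?_⟩
  have h1 : ∑ i ∈ Finset.range ℓ, A i * ((ℓ : U) * r ^ i)⁻¹ * r ^ i =
      ∑ i ∈ Finset.range ℓ, (ℓ : U)⁻¹ * A i := by
    refine Finset.sum_congr rfl fun i _ => ?_
    have h2 : r ^ i ≠ 0 := pow_ne_zero i hr0
    field_simp
  change z = ∑ i ∈ Finset.range ℓ, A i * ((ℓ : U) * r ^ i)⁻¹ * r ^ i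
  rw [h1, ← Finset.mul_sum, hsum, ← mul_assoc, inv_mul_cancel₀ hch, one_mul]

/-- Uniqueness of the place over a ramified place. -/
theorem og3 [IsAlgClosed E] [CharZero E] {L N : IntermediateField E U} (hLN : L ≤ N)
    (hL : IsFunctionField E L) {T : U ≃+* U} (hTL : ∀ z ∈ L, T z = z)
    (hTN : ∀ z ∈ N, T z ∈ N) {ℓ : ℕ} (hℓ : ℓ.Prime) (hTT : ∀ z ∈ N, (T ^ ℓ) z = z)
    (hfix : ∀ z ∈ N, T z = z → z ∈ L) {r : U} {h : L} (hr : r ∈ N) (hr0 : r ≠ 0) {c : E}
    (hc : IsPrimitiveRoot c ℓ) (hTr : T r = algebraMap E U c * r) (hh : (h : U) = r ^ ℓ)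
    {b : Place E L} (hb : ¬ (ℓ : ℤ) ∣ ord b.ring h) :
    (∃ Q : Place E N, OverPl b Q) ∧
    ∀ Q Q' : Place E N, OverPl b Q → OverPl b Q' → Q = Q' ∧ Moves T N Q Q := by
  have hℓ0 := hℓ.ne_zero
  have hchU : CharZero U := charZero_of_injective_algebraMap (algebraMap E U).injective
  have hlU : (ℓ : U) ≠ 0 := Nat.cast_ne_zero.2 hℓ0
  have hTE : ∀ e : E, T (algebraMap E U e) = algebraMap E U e := fun e =>
    hTL _ (L.algebraMap_mem e)
  have hh0 : h ≠ 0 := by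
    rintro rfl
    exact pow_ne_zero ℓ hr0 hh.symm
  refine ⟨?_, ?_⟩
  · let iA : Algebra L N := (IntermediateField.inclusion hLN).toRingHom.toAlgebra
    have sA : IsScalarTower E L N := IsScalarTower.of_algebraMap_eq fun x => rfl
    obtain ⟨Q, hQ⟩ := SC.exists_place_over (K := E) (M := L) (N := N) b
    exact ⟨Q, fun x hx hx' => (hQ ⟨x, hx⟩).symm⟩
  have hdec := fun z hz => dec90 (L := L) hTN hℓ0 hTE hTT hfix hr hr0 hc hlU hTr (z := z) hz
  have hcrit : ∀ Q : Place E N, OverPl b Q → ∀ (p : ℕ → L) (z : N),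
      (z : U) = ∑ i ∈ Finset.range ℓ, (p i : U) * r ^ i →
      (z ∈ Q.ring ↔ ∀ i ∈ Finset.range ℓ, p i ^ ℓ * h ^ i ∈ b.ring) := by
    intro Q hQ p z hz
    obtain ⟨R, hR⟩ : ∃ R : ℕ → N, ∀ i, (R i : U) = (p i : U) * r ^ i :=
      ⟨fun i => ⟨(p i : U) * r ^ i, mul_mem (hLN (p i).2) (pow_mem hr i)⟩, fun _ => rfl⟩
    have hzR : z = ∑ i ∈ Finset.range ℓ, R i := by
      apply Subtype.ext
      have h1 : ((∑ i ∈ Finset.range ℓ, R i : N) : U) = ∑ i ∈ Finset.range ℓ, (R i : U) :=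
        map_sum N.val _ _
      rw [hz, h1]
      exact Finset.sum_congr rfl fun i _ => (hR i).symm
    have hRl : ∀ i, R i ^ ℓ = ⟨((p i ^ ℓ * h ^ i : L) : U), hLN (p i ^ ℓ * h ^ i).2⟩ := by
      intro i
      apply Subtype.ext
      change ((R i : N) : U) ^ ℓ = ((p i : L) : U) ^ ℓ * (h : U) ^ i
      rw [hR, hh, mul_pow, ← pow_mul, ← pow_mul, mul_comm i ℓ]
    have hRi : ∀ i, R i ∈ Q.ring ↔ p i ^ ℓ * h ^ i ∈ b.ring := by
      intro i
      have h1 : R i ^ ℓ ∈ Q.ring ↔ p i ^ ℓ * h ^ i ∈ b.ring := by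
        rw [hRl]
        exact (hQ _ (p i ^ ℓ * h ^ i : L).2 (hLN (p i ^ ℓ * h ^ i).2)).symm
      rw [← h1]
      refine ⟨fun h => pow_mem h ℓ, fun h => ?_⟩
      rw [← Q.ring.valuation_le_one_iff] at h ⊢
      rw [map_pow] at h
      exact le_one_of_pow90 hℓ0 h
    -- the values are different
    have hne : ∀ i ∈ Finset.range ℓ, ∀ j ∈ Finset.range ℓ, R i ≠ 0 → R j ≠ 0 →
        Q.ring.valuation (R i) = Q.ring.valuation (R j) → i = j := by
      intro i hi j hj hi0 hj0 hv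
      have hpi : ∀ i, R i ≠ 0 → p i ≠ 0 := by
        intro i hi h0
        apply hi
        apply Subtype.ext
        rw [hR, h0]
        exact zero_mul _
      have hpi0 := hpi i hi0
      have hpj0 := hpi j hj0
      have hs : ∀ i, R i ≠ 0 → p i ^ ℓ * h ^ i ≠ 0 := fun i hi =>
        mul_ne_zero (pow_ne_zero _ (hpi i hi)) (pow_ne_zero _ hh0)
      have hu0 : p i ^ ℓ * h ^ i * (p j ^ ℓ * h ^ j)⁻¹ ≠ 0 :=
        mul_ne_zero (hs i hi0) (inv_ne_zero (hs j hj0))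
      have e : (⟨((p i ^ ℓ * h ^ i * (p j ^ ℓ * h ^ j)⁻¹ : L) : U),
          hLN (p i ^ ℓ * h ^ i * (p j ^ ℓ * h ^ j)⁻¹).2⟩ : N) = R i ^ ℓ * (R j ^ ℓ)⁻¹ := by
        rw [hRl, hRl]
        rfl
      have hval : Q.ring.valuation (R i ^ ℓ * (R j ^ ℓ)⁻¹) = 1 := by
        rw [map_mul, map_inv₀, map_pow, map_pow, hv, mul_inv_cancel₀]
        exact pow_ne_zero ℓ ((Valuation.ne_zero_iff _).2 hj0)
      rw [val_eq_one34, ← e] at hval
      have h1 : p i ^ ℓ * h ^ i * (p j ^ ℓ * h ^ j)⁻¹ ∈ b.ring :=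
        (hQ _ (p i ^ ℓ * h ^ i * (p j ^ ℓ * h ^ j)⁻¹ : L).2 _).2 hval.1
      have h2 : p i ^ ℓ * h ^ i * (p j ^ ℓ * h ^ j)⁻¹ ∉ b.ring.nonunits := fun hn =>
        hval.2 ((overPl_nonunits34 hQ (p i ^ ℓ * h ^ i * (p j ^ ℓ * h ^ j)⁻¹ : L).2 _).1 hn)
      have h3 := (ord_nonneg_iff hL b hu0).2 h1
      have h4 : ¬ 0 < ord b.ring (p i ^ ℓ * h ^ i * (p j ^ ℓ * h ^ j)⁻¹) := fun h =>
        h2 ((ord_pos_iff hL b hu0).1 h)
      rw [ord_mul hL b (hs i hi0) (inv_ne_zero (hs j hj0)), ord_inv hL b (hs j hj0),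
        ord_mul hL b (pow_ne_zero _ hpi0) (pow_ne_zero _ hh0),
        ord_mul hL b (pow_ne_zero _ hpj0) (pow_ne_zero _ hh0), ord_pow34 hL b hpi0,
        ord_pow34 hL b hpj0, ord_pow34 hL b hh0, ord_pow34 hL b hh0] at h3 h4
      have h5 : ((i : ℤ) - j) * ord b.ring h = ℓ * (ord b.ring (p j) - ord b.ring (p i)) := by
        linarith
      have h6 : (ℓ : ℤ) ∣ ((i : ℤ) - j) * ord b.ring h := ⟨_, h5⟩
      have h7 := ((Nat.prime_iff_prime_int.1 hℓ).dvd_or_dvd h6).resolve_right hb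
      obtain ⟨s, hs'⟩ := h7
      have hi' : (i : ℤ) < ℓ := by exact_mod_cast Finset.mem_range.1 hi
      have hj' : (j : ℤ) < ℓ := by exact_mod_cast Finset.mem_range.1 hj
      have hs0 : s = 0 := by
        by_contra hs0
        rcases lt_or_gt_of_ne hs0 with h8 | h8
        · nlinarith
        · nlinarith
      rw [hs0, mul_zero] at hs'
      omega
    rw [hzR]
    constructor
    · intro hzr
      obtain ⟨i₀, hi₀, hmax⟩ := Finset.exists_max_image (Finset.range ℓ)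
        (fun i => Q.ring.valuation (R i)) ⟨0, Finset.mem_range.2 hℓ.pos⟩
      have hle : Q.ring.valuation (R i₀) ≤ 1 := by
        by_cases h0 : R i₀ = 0
        · rw [h0, map_zero]
          exact zero_le
        · have h1 : Q.ring.valuation (∑ i ∈ (Finset.range ℓ).erase i₀, R i) <
              Q.ring.valuation (R i₀) := by
            refine Valuation.map_sum_lt _ ((Valuation.ne_zero_iff _).2 h0) fun i hi => ?_
            obtain ⟨hi1, hi2⟩ := Finset.mem_erase.1 hi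
            refine lt_of_le_of_ne (hmax i hi2) fun hv => ?_
            by_cases h2 : R i = 0
            · rw [h2, map_zero] at hv
              exact h0 ((Valuation.zero_iff _).1 hv.symm)
            · exact hi1 (hne i hi2 i₀ hi₀ h2 h0 hv)
          rw [← Finset.add_sum_erase _ _ hi₀, ← Q.ring.valuation_le_one_iff,
            Valuation.map_add_eq_of_lt_left _ h1] at hzr
          exact hzr
      intro i hi
      rw [← hRi, ← Q.ring.valuation_le_one_iff]
      exact (hmax i hi).trans hle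
    · intro hall
      exact sum_mem fun i hi => (hRi i).2 (hall i hi)
  intro Q Q' hQ hQ'
  refine ⟨?_, ?_⟩
  · apply Place.ext
    ext z
    obtain ⟨p, hz⟩ := hdec z z.2
    rw [hcrit Q hQ p z hz, hcrit Q' hQ' p z hz]
  · intro x hx hx'
    obtain ⟨p, hz⟩ := hdec x hx
    have hz' : T x = ∑ i ∈ Finset.range ℓ, ((algebraMap E L c ^ i * p i : L) : U) * r ^ i := by
      rw [hz, map_sum]
      refine Finset.sum_congr rfl fun i _ => ?_
      rw [map_mul, hTL _ (p i).2, map_pow, hTr]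
      change _ = (algebraMap E U c ^ i * (p i : U)) * r ^ i
      rw [mul_pow]
      ring
    rw [hcrit Q hQ p ⟨x, hx⟩ hz, hcrit Q hQ (fun i => algebraMap E L c ^ i * p i) ⟨T x, hx'⟩ hz']
    have hcc : ∀ i, (algebraMap E L c ^ i * p i) ^ ℓ * h ^ i = p i ^ ℓ * h ^ i := by
      intro i
      rw [mul_pow, ← pow_mul, mul_comm i ℓ, pow_mul, ← map_pow, hc.pow_eq_one, map_one, one_pow,
        one_mul]
    simp only [hcc]

end

end Pool.Agent.PL90
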