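import Pool.Agent.Helper90.PL.OG
import Pool.Agent.Helper90.TW.OrbF1
import Pool.Agent.Helper13.PLF.Defs

/-!
# Project PL (MP_e66f84_ag), block BRP: branch places after a change of base
-/

set_option autoImplicit false

namespace Pool.Agent.PRL

open VC IntermediateField NumberField Pool.Agent.SC Pool.Agent.PL90
open Pool.Agent.L (L0 MM)
open Pool.Agent.LN (Geo Act GoodCurve)
open Pool.Agent.M (Moves OverPl inL0)
open Pool.Agent.ML (HasMu BPl)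
open Pool.Agent.TOW (Au AuE)

/-- a place between -/
theorem overPl_between90 {E U : Type} [Field E] [Field U] [Algebra E U]
    {L L' N : IntermediateField E U} (hLN : L' ≤ N) {b : Place E L} {b' : Place E L'}
    {Q : Place E N} (h : OverPl b Q) (h' : OverPl b' Q) : OverPl b b' := fun x hx hx' =>
  (h x hx (hLN hx')).trans (h' x hx' (hLN hx')).symm

/-- BLOCK BRP. -/
theorem bRP : StmtBRP := by
  intro k K0 E U _ _ _ _ _ _ _ _ _ _ _ _ ℓ h r hℓ hμ geo N hN hMN K' h' hh' hK' geo' hMM ι hι hfix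
  have hE : IsAlgClosed E := geo.clE
  have hcE : CharZero E := charZero_of_injective_algebraMap (algebraMap k E).injective
  obtain ⟨ζ, hζ, hιr⟩ := hι.mul
  have hζ1 : ζ ≠ 1 := hζ.ne_one hℓ.one_lt
  have hLN : L0 E K' (U := U) ≤ N := fun z hz => ((hfix z).1 hz).1
  have hL0N : L0 E K0 (U := U) ≤ N := by
    refine IntermediateField.adjoin_le_iff.2 ?_
    rintro _ ⟨x, rfl⟩
    exact hN.le x
  have hrN : r ∈ N := hMN (IntermediateField.subset_adjoin _ _ (Or.inr rfl))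
  have hιL : ∀ z ∈ L0 E K' (U := U), ι z = z := fun z hz => ((hfix z).1 hz).2
  have hιL0 : ∀ z ∈ L0 E K0 (U := U), ι z = z := TOW.AuE.l0 hι.auE
  have hιN : ∀ z ∈ N, ι z ∈ N := hN.stab ι hι.auE.fixK fun e => ⟨e, hι.auE.fixE e⟩
  have hr0 : r ≠ 0 := by
    rintro rfl
    exact geo.rnot 1 one_pos hℓ.one_lt (by rw [pow_one]; exact zero_mem _)
  have e1 : ((inL0 h' : L0 E K' (U := U)) : U) = r ^ ℓ := geo'.rpow.symm
  have e0 : ((inL0 h : L0 E K0 (U := U)) : U) = r ^ ℓ := geo.rpow.symm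
  have hbelow : ∀ Q : Place E N, ∃ b : Place E (L0 E K0 (U := U)), OverPl b Q :=
    (TOW.oG4 E U (L0 E K0) N hL0N geo.ff hN.ff).1
  have hbelow' : ∀ Q : Place E N, ∃ b : Place E (L0 E K' (U := U)), OverPl b Q :=
    (TOW.oG4 E U (L0 E K') N hLN geo'.ff hN.ff).1
  refine ⟨fun b' hb' => ?_, fun b Q hb hbQ hιQ => ?_⟩
  · obtain ⟨⟨Q, hQ⟩, huniq⟩ := og3 hLN geo'.ff hιL hιN hℓ hι.pow
      (fun z hz h => (hfix z).2 ⟨hz, h⟩) hrN hr0 hζ hιr e1 hb'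
    have hιQ : Moves ι N Q Q := (huniq Q Q hQ hQ).2
    obtain ⟨b, hb⟩ := hbelow Q
    refine ⟨⟨b, ?_, overPl_between90 hLN hb hQ⟩, Q, hQ, hιQ, fun Q₁ hQ₁ => (huniq Q₁ Q hQ₁ hQ).1⟩
    exact og2 hL0N geo.ff hN.ff hb hιL0 hιQ hℓ.ne_zero hrN hr0 hζ1 hιr e0
  · obtain ⟨b', hb'⟩ := hbelow' Q
    have hB : BPl ℓ h' b' := og2 hLN geo'.ff hN.ff hb' hιL hιQ hℓ.ne_zero hrN hr0 hζ1 hιr e1
    obtain ⟨-, huniq⟩ := og3 hLN geo'.ff hιL hιN hℓ hι.pow
      (fun z hz h => (hfix z).2 ⟨hz, h⟩) hrN hr0 hζ hιr e1 hB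
    exact ⟨b', hB, hb', overPl_between90 hLN hbQ hb', fun Q₁ hQ₁ => (huniq Q₁ Q hQ₁ hb').1⟩

end Pool.Agent.PRL
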