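import Pool.Agent.Helper59.ML.BIJ
import Pool.Agent.Helper13.ML.GB
import Pool.Agent.Helper90.PL.RSA

/-!
# Pro-`ℓ` levels (MP_e66f84_ag), any curve `Y`: the set of the rational branch places

The branch places of `L0` are the geometric branch points of `Y` (`ML.GBr`).
-/

set_option autoImplicit false
set_option linter.unusedSectionVars false

namespace Pool.Agent.PL90

open VC IntermediateField NumberField Pool.Agent.SC Pool.Agent.M
open Pool.Agent.L (L0 MM tA tB tA_apply)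
open Pool.Agent.LN (Geo Act)
open Pool.Agent.ML (HasMu BPl GBr GPt gp gp_inj gp_surj gp_mv dvd_iff h_ne_zero trE trE_map)
open Pool.Agent.MP (jj)

noncomputable section

/-- There are enough branch points; for any two rational branch points there is a third closed
branch point of degree prime to `ℓ`. -/
structure GoodBr (k : Type) {K0 : Type} (E : Type) [Field k] [Field K0] [Field E] [Algebra k K0]
    [Algebra k E] (ℓ : ℕ) (h : K0) : Prop where
  three : 3 ≤ Nat.card (GBr k E ℓ h)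
  four : ℓ = 3 → 4 ≤ Nat.card (GBr k E ℓ h)
  third : ∀ a b : GBr k E ℓ h, (∀ g : E ≃ₐ[k] E, a.map g = a) → (∀ g : E ≃ₐ[k] E, b.map g = b) →
    a ≠ b → ∃ d : GBr k E ℓ h, d ≠ a ∧ d ≠ b ∧
      ¬ ℓ ∣ Nat.card (Set.range fun g : E ≃ₐ[k] E => d.map g)

/-- transport -/
theorem GoodBr.tr {k K0 E E' : Type} [Field k] [NumberField k] [Field K0] [Field E] [Field E']
    [Algebra k K0] [Algebra k E] [Algebra k E'] {ℓ : ℕ} {h : K0} (e : E ≃ₐ[k] E') (H : GoodBr k E' ℓ h) :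
    GoodBr k E ℓ h := by
  have hc : Nat.card (GBr k E ℓ h) = Nat.card (GBr k E' ℓ h) :=
    Nat.card_congr (trE (n := ℓ) (h := h) e)
  have hfix : ∀ a : GBr k E ℓ h, (∀ g : E ≃ₐ[k] E, a.map g = a) →
      ∀ g : E' ≃ₐ[k] E', (trE e a).map g = trE e a := by
    intro a ha g
    rw [← MP.tA_tB e g, ← trE_map, ha]
  refine ⟨by rw [hc]; exact H.three, fun hl => by rw [hc]; exact H.four hl, fun a b ha hb hab => ?_⟩
  obtain ⟨d, hda, hdb, hd⟩ := H.third (trE e a) (trE e b) (hfix a ha) (hfix b hb) fun h =>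
    hab ((trE e).injective h)
  refine ⟨(trE e).symm d, ?_, ?_, ?_⟩
  · intro h1
    apply hda
    rw [← h1, Equiv.apply_symm_apply]
  · intro h1
    apply hdb
    rw [← h1, Equiv.apply_symm_apply]
  · have h1 : (Set.range fun g : E' ≃ₐ[k] E' => d.map g) =
        trE e '' (Set.range fun g : E ≃ₐ[k] E => ((trE e).symm d).map g) := by
      ext x
      constructor
      · rintro ⟨g, rfl⟩
        refine ⟨_, ⟨tB e g, rfl⟩, ?_⟩
        rw [trE_map, MP.tA_tB, Equiv.apply_symm_apply]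
      · rintro ⟨_, ⟨g, rfl⟩, rfl⟩
        refine ⟨tA e g, ?_⟩
        change d.map (tA e g) = trE e (((trE e).symm d).map g)
        rw [trE_map, Equiv.apply_symm_apply]
    rw [h1, Nat.card_image_of_injective (trE e).injective] at hd
    exact hd

section

variable {k K0 E U : Type} [Field k] [NumberField k] [Field K0] [Field E] [Field U] [Algebra k K0]
    [Algebra k E] [Algebra E U] [Algebra K0 U] [Algebra k U] [IsScalarTower k E U]
    [IsScalarTower k K0 U] {ℓ : ℕ} {h : K0} {r : U}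

/-- The branch places of `L0` are the geometric branch points of `Y`. -/
theorem gam90 (hℓ : ℓ.Prime) (geo : Geo k K0 E U ℓ h r) {c : k}
    {Φ : (E ≃ₐ[k] E) →* (U ≃+* U)} (hΦ' : Act (K0 := K0) ℓ r c Φ) :
    ∃ γ : {b : Place E (L0 E K0 (U := U)) // BPl ℓ h b} ≃ GBr k E ℓ h,
      (∀ (g : E ≃ₐ[k] E) (b b' : {b : Place E (L0 E K0 (U := U)) // BPl ℓ h b}),
        Moves (Φ g) _ b.1 b'.1 ↔ (γ b).map g = γ b') ∧
      ∀ (b : {b : Place E (L0 E K0 (U := U)) // BPl ℓ h b}) (z : K0),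
        z ∈ (γ b).P ↔ (inL0 z : L0 E K0 (U := U)) ∈ b.1.ring := by
  have hΦ := ML.toL hΦ'
  have hcl : IsAlgClosed E := geo.clE
  have halg : Algebra.IsAlgebraic k E := geo.algE
  have hch : CharZero E := charZero_of_injective_algebraMap (algebraMap k E).injective
  have hgal : IsGalois k E := by
    have h1 : IsAlgClosure k E := ⟨hcl, halg⟩
    exact ⟨⟩
  have hh0 := h_ne_zero hℓ.two_le geo
  have hbij : Function.Bijective (gp (k := k) (h := h) (U := U) geo.ff hh0) :=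
    ⟨gp_inj geo.ff hh0 hΦ geo.normal, gp_surj geo.ff hh0 hΦ⟩
  have hne : ∀ b : {b : Place E (L0 E K0 (U := U)) // BPl ℓ h b},
      ord b.1.ring (inL0 h) ≠ 0 := by
    rintro ⟨b, hb⟩ h0
    refine hb ?_
    change (ℓ : ℤ) ∣ ord b.ring (inL0 h)
    have h1 : ord b.ring (inL0 h) = 0 := h0
    rw [h1]
    exact dvd_zero _
  have hdvd := fun (b : Place E (L0 E K0 (U := U))) =>
    dvd_iff geo.ff hh0 hΦ geo.normal b hℓ.pos
  let toG : {b : Place E (L0 E K0 (U := U)) // BPl ℓ h b} → GBr k E ℓ h := fun b =>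
    { P := (gp (k := k) geo.ff hh0 ⟨b.1, hne b⟩).P
      φ := (gp (k := k) geo.ff hh0 ⟨b.1, hne b⟩).φ
      const := (gp (k := k) geo.ff hh0 ⟨b.1, hne b⟩).const
      ram := fun z hz => b.2 ((hdvd b.1).2 ⟨z, hz⟩)
      emb := (gp (k := k) geo.ff hh0 ⟨b.1, hne b⟩).emb }
  let pt : GBr k E ℓ h → GPt k E h := fun b =>
    { P := b.P
      φ := b.φ
      const := b.const
      nt := fun h1 => b.ram 1 (by rw [h1, _root_.map_one, one_pow])
      emb := b.emb }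
  have hpt : ∀ b, pt (toG b) = gp (k := k) geo.ff hh0 ⟨b.1, hne b⟩ := fun b => rfl
  have hptinj : Function.Injective pt := by
    rintro ⟨P, φ, h1, h2, h3⟩ ⟨P', φ', h1', h2', h3'⟩ hpp
    have h4 : P = P' := congrArg GPt.P hpp
    subst h4
    have h6 : (⟨P, φ, h1, (pt ⟨P, φ, h1, h2, h3⟩).nt, h3⟩ : GPt k E h) =
        ⟨P, φ', h1', (pt ⟨P, φ', h1', h2', h3'⟩).nt, h3'⟩ := hpp
    rw [GPt.mk.injEq] at h6
    have h5 : φ = φ' := eq_of_heq h6.2
    subst h5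
    rfl
  have hb2 : Function.Bijective toG := by
    constructor
    · intro b b' hbb
      have h1 : gp (k := k) geo.ff hh0 ⟨b.1, hne b⟩ = gp (k := k) geo.ff hh0 ⟨b'.1, hne b'⟩ :=
        congrArg pt hbb
      have h2 := hbij.1 h1
      exact Subtype.ext (Subtype.mk.inj h2)
    · intro b
      obtain ⟨b', hb'⟩ := hbij.2 (pt b)
      have h1 : ¬ (ℓ : ℤ) ∣ ord b'.1.ring (inL0 h) := by
        intro h1
        obtain ⟨z, hz⟩ := (hdvd b'.1).1 h1
        have h2 : (gp (k := k) geo.ff hh0 b').P.valuation h =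
          (gp (k := k) geo.ff hh0 b').P.valuation z ^ ℓ := hz
        rw [hb'] at h2
        exact b.ram z h2
      refine ⟨⟨b'.1, h1⟩, hptinj ?_⟩
      rw [hpt]
      exact hb'
  refine ⟨Equiv.ofBijective toG hb2, fun g b b' => ?_, fun b z => Iff.rfl⟩
  have hmv : Moves (Φ g) _ b.1 b'.1 ↔
      (gp (k := k) geo.ff hh0 ⟨b.1, hne b⟩).map g = gp (k := k) geo.ff hh0 ⟨b'.1, hne b'⟩ := by
    rw [moves_iff59 hΦ, ← gp_mv geo.ff hh0 hΦ g ⟨b.1, hne b⟩]
    constructor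
    · intro h1
      congr 1
      exact Subtype.ext h1.symm
    · intro h1
      exact (congrArg Subtype.val (gp_inj geo.ff hh0 hΦ geo.normal h1)).symm
  rw [hmv]
  change _ ↔ (toG b).map g = toG b'
  constructor
  · intro h1
    apply hptinj
    rw [hpt, ← h1]
    rfl
  · intro h1
    have h2 := congrArg pt h1
    rw [hpt] at h2
    exact h2

/-- a branch place fixed by an action lies over a rational branch point -/
theorem rch3G (hℓ : ℓ.Prime) (geo : Geo k K0 E U ℓ h r) {c : k}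
    {Φ : (E ≃ₐ[k] E) →* (U ≃+* U)} (hΦ : Act (K0 := K0) ℓ r c Φ)
    {b : Place E (L0 E K0 (U := U))} (hb : BPl ℓ h b) (hfix : ∀ g : E ≃ₐ[k] E, Moves (Φ g) _ b b) :
    ∃ a : GBr k E ℓ h, (∀ g : E ≃ₐ[k] E, a.map g = a) ∧
      ∀ z : K0, ((inL0 z : L0 E K0 (U := U)) ∈ b.ring ↔ z ∈ a.P) := by
  obtain ⟨γ, hγ, hP⟩ := gam90 hℓ geo hΦ
  exact ⟨γ ⟨b, hb⟩, fun g => (hγ g ⟨b, hb⟩ ⟨b, hb⟩).1 (hfix g), fun z => (hP ⟨b, hb⟩ z).symm⟩

/-- A power prime to `ℓ` of a permutation of a finite set, whose number of elements is not divisible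
by `ℓ`, has a fixed point. -/
theorem perm_fix90' {S : Type} [Finite S] {ℓ : ℕ} (hℓ : ℓ.Prime) (hd : ¬ ℓ ∣ Nat.card S)
    (π : Equiv.Perm S) : ∃ n : ℕ, ¬ ℓ ∣ n ∧ ∃ t : S, (π ^ n) t = t := by
  have : Fact ℓ.Prime := ⟨hℓ⟩
  have h0 : orderOf π ≠ 0 := (orderOf_pos π).ne'
  obtain ⟨a, m, hm, hπ⟩ := Nat.exists_eq_pow_mul_and_not_dvd h0 ℓ hℓ.ne_one
  refine ⟨m, hm, ?_⟩
  have hp : IsPGroup ℓ (Subgroup.zpowers (π ^ m)) := by
    rintro ⟨g, j, rfl⟩
    refine ⟨a, ?_⟩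
    apply Subtype.ext
    change ((π ^ m) ^ j) ^ (ℓ ^ a) = 1
    rw [← zpow_natCast ((π ^ m) ^ j), ← zpow_mul, mul_comm, zpow_mul, zpow_natCast, ← pow_mul,
      mul_comm m, ← hπ, pow_orderOf_eq_one, one_zpow]
  have h1 := hp.card_modEq_card_fixedPoints S
  have h2 : Nat.card (MulAction.fixedPoints (Subgroup.zpowers (π ^ m)) S) ≠ 0 := by
    intro h2
    rw [h2] at h1
    exact hd (Nat.modEq_zero_iff_dvd.1 h1)
  obtain ⟨⟨t, ht⟩⟩ := (Nat.card_ne_zero.1 h2).1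
  exact ⟨t, ht ⟨π ^ m, Subgroup.mem_zpowers _⟩⟩

theorem numG90 {ℓ n : ℕ} (hℓ : ℓ.Prime) (hℓ2 : ℓ ≠ 2) (h3 : 3 ≤ n) (h4 : ℓ = 3 → 4 ≤ n) :
    n * ℓ ^ 2 < ℓ ^ n := by
  have hℓ3 : 3 ≤ ℓ := by
    have := hℓ.two_le
    omega
  rcases Nat.lt_or_ge n 4 with hn | hn
  · have h5 : n = 3 := by omega
    have h6 : ℓ ≠ 3 := fun h => by
      have := h4 h
      omega
    have h7 : 3 < ℓ := by omega
    rw [h5, pow_succ ℓ 2, mul_comm]
    exact Nat.mul_lt_mul_of_pos_left h7 (pow_pos (by omega) 2)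
  · exact num90 hℓ3 hn

/-- BLOCK RSG: the set of the rational branch places. -/
theorem rSG (hℓ : ℓ.Prime) (hℓ2 : ℓ ≠ 2) (hμ : HasMu k ℓ) (geo : Geo k K0 E U ℓ h r) {c₀ : k}
    (hc₀ : c₀ ≠ 0) {Φ₀ : (E ≃ₐ[k] E) →* (U ≃+* U)} (hA : Act (K0 := K0) ℓ r c₀ Φ₀)
    (hgood : GoodBr k E ℓ h) (hrat : ∃ a : GBr k E ℓ h, ∀ g : E ≃ₐ[k] E, a.map g = a) :
    ∃ R : Finset (Place E (L0 E K0 (U := U))), PD.RatSet (k := k) ℓ h r R := by
  classical
  obtain ⟨hfin, hnr⟩ := ML.nR k K0 E U ℓ ℓ h r hℓ.pos hℓ (dvd_refl _) hμ geo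
  have hagree : ∀ (c : k) (Φ : (E ≃ₐ[k] E) →* (U ≃+* U)), c ≠ 0 → Act (K0 := K0) ℓ r c Φ →
      ∀ (σ : E ≃ₐ[k] E) (b b' : Place E (L0 E K0 (U := U))),
        Moves (Φ σ) _ b b' ↔ Moves (Φ₀ σ) _ b b' := fun c Φ hc hΦ =>
    (hnr c Φ hc hΦ).2.2.1 c₀ Φ₀ hc₀ hA
  obtain ⟨γ, hγ, -⟩ := gam90 hℓ geo hA
  obtain ⟨T, hT⟩ : ∃ T : Set (Place E (L0 E K0 (U := U))),
      T = {b | BPl ℓ h b ∧ ∀ σ : E ≃ₐ[k] E, Moves (Φ₀ σ) _ b b} := ⟨_, rfl⟩
  have hTfin : T.Finite := hfin.subset fun b hb => by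
    rw [hT] at hb
    exact hb.1
  have hmem : ∀ b, b ∈ hTfin.toFinset ↔ BPl ℓ h b ∧ ∀ σ : E ≃ₐ[k] E, Moves (Φ₀ σ) _ b b := by
    intro b
    rw [Set.Finite.mem_toFinset, hT]
    rfl
  have hF : Finite {b : Place E (L0 E K0 (U := U)) // BPl ℓ h b} := hfin.to_subtype
  have hFG : Finite (GBr k E ℓ h) := Finite.of_equiv _ γ
  refine ⟨hTfin.toFinset, ?_, ?_, ?_, ?_, ?_, ?_⟩
  · obtain ⟨a, ha⟩ := hrat
    refine ⟨(γ.symm a).1, (hmem _).2 ⟨(γ.symm a).2, fun σ => (hγ σ _ _).2 ?_⟩⟩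
    rw [Equiv.apply_symm_apply, ha]
  · exact fun b hb => ((hmem b).1 hb).1
  · intro b hb c Φ hc hΦ σ
    exact (hagree c Φ hc hΦ σ b b).2 (((hmem b).1 hb).2 σ)
  · intro c Φ hc hΦ b hb hbR
    by_contra hcon
    push Not at hcon
    exact hbR ((hmem b).2 ⟨hb, fun σ => (hagree c Φ hc hΦ σ b b).1 (hcon σ)⟩)
  · rw [Nat.card_congr γ]
    exact numG90 hℓ hℓ2 hgood.three hgood.four
  · intro a ha b hb hab
    obtain ⟨haB, haf⟩ := (hmem a).1 ha
    obtain ⟨hbB, hbf⟩ := (hmem b).1 hb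
    refine ⟨hℓ2, fun c Φ hc hΦ σ => ?_⟩
    obtain ⟨d, hda, hdb, hd⟩ := hgood.third (γ ⟨a, haB⟩) (γ ⟨b, hbB⟩)
      (fun g => (hγ g ⟨a, haB⟩ ⟨a, haB⟩).1 (haf g)) (fun g => (hγ g ⟨b, hbB⟩ ⟨b, hbB⟩).1 (hbf g))
      (fun h => hab (Subtype.mk.inj (γ.injective h)))
    -- the permutation of the orbit of `d`
    have hcomp : ∀ (x : GBr k E ℓ h) (g g' : E ≃ₐ[k] E), (x.map g).map g' = x.map (g' * g) :=
      fun x g g' => rfl
    have hone : ∀ x : GBr k E ℓ h, x.map 1 = x := fun x => rfl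
    let O : Type := Set.range fun g : E ≃ₐ[k] E => d.map g
    let f : O → O := fun x => ⟨x.1.map σ, by
      obtain ⟨x, g, rfl⟩ := x
      exact ⟨σ * g, rfl⟩⟩
    let f' : O → O := fun x => ⟨x.1.map σ⁻¹, by
      obtain ⟨x, g, rfl⟩ := x
      exact ⟨σ⁻¹ * g, rfl⟩⟩
    let π : Equiv.Perm O :=
      { toFun := f
        invFun := f'
        left_inv := fun x => Subtype.ext (by
          change (x.1.map σ).map σ⁻¹ = x.1
          rw [hcomp, inv_mul_cancel, hone])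
        right_inv := fun x => Subtype.ext (by
          change (x.1.map σ⁻¹).map σ = x.1
          rw [hcomp, mul_inv_cancel, hone]) }
    have hπ : ∀ (n : ℕ) (x : O), ((π ^ n) x).1 = x.1.map (σ ^ n) := by
      intro n
      induction n with
      | zero => intro x; exact (hone x.1).symm
      | succ n ih =>
        intro x
        rw [pow_succ' π, pow_succ' σ, ← hcomp, ← ih x]
        rfl
    obtain ⟨n, hn, t, ht⟩ := perm_fix90' hℓ hd π
    obtain ⟨t, g, rfl⟩ := t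
    have hne : ∀ x : GBr k E ℓ h, (∀ g : E ≃ₐ[k] E, x.map g = x) → d ≠ x → d.map g ≠ x := by
      intro x hx hdx h1
      apply hdx
      have h2 := congrArg (fun y : GBr k E ℓ h => y.map g⁻¹) h1
      change (d.map g).map g⁻¹ = x.map g⁻¹ at h2
      rw [hcomp, inv_mul_cancel, hone, hx] at h2
      exact h2
    refine ⟨(γ.symm (d.map g)).1, (γ.symm (d.map g)).2, ?_, ?_, n, hn,
      (hagree c Φ hc hΦ (σ ^ n) _ _).2 ((hγ (σ ^ n) _ _).2 ?_)⟩
    · intro h1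
      refine hne _ (fun g => (hγ g ⟨a, haB⟩ ⟨a, haB⟩).1 (haf g)) hda ?_
      rw [← Equiv.symm_apply_eq γ]
      exact Subtype.ext h1
    · intro h1
      refine hne _ (fun g => (hγ g ⟨b, hbB⟩ ⟨b, hbB⟩).1 (hbf g)) hdb ?_
      rw [← Equiv.symm_apply_eq γ]
      exact Subtype.ext h1
    · rw [Equiv.apply_symm_apply]
      have h1 := hπ n ⟨d.map g, ⟨g, rfl⟩⟩
      rw [ht] at h1
      exact h1.symm

end

end

end Pool.Agent.PL90
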